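import Pool.Agent.Bog.Joint

/-!
Let `k` be algebraically closed, `K` a field containing `k`, `ℓ` a prime different from the
characteristic of `k`, `P` a Sylow pro-`ℓ` subgroup of the absolute Galois group of `K`, `N` the
closed commutator subgroup of `P` and `Φ` the Frattini subgroup of `P`.  Every central embedding
problem `α : B → A ← N : φ` with `A` abelian such that `φ` is trivial on the elements of `N` that
fix finitely many `ℓ`-power roots `ρ i` of elements that are fixed by `Φ` or of the form `1 - ξ`,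
`ξ` an `ℓ`-power root of an element fixed by `P`, is weakly solvable over `N`.
-/

set_option autoImplicit false

namespace Pool.Agent.Results.MP_72bcb7_al.ClassicalFrattini

theorem result (k : Type) [Field k] [IsAlgClosed k] (K : Type) [Field K] [Algebra k K]
    (ℓ : ℕ) (hℓ : ℓ.Prime) (hk : ringChar k ≠ ℓ)
    (P : Subgroup (AlgebraicClosure K ≃ₐ[K] AlgebraicClosure K))
    (hPc : IsClosed (P : Set (AlgebraicClosure K ≃ₐ[K] AlgebraicClosure K)))
    (hP : ∀ (U : Subgroup (AlgebraicClosure K ≃ₐ[K] AlgebraicClosure K)) [U.Normal],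
      IsOpen (U : Set (AlgebraicClosure K ≃ₐ[K] AlgebraicClosure K)) →
        IsPGroup ℓ (P.map (QuotientGroup.mk' U)) ∧
          ¬ ℓ ∣ (P.map (QuotientGroup.mk' U)).index)
    (N Φ : Subgroup (AlgebraicClosure K ≃ₐ[K] AlgebraicClosure K))
    (hN : N = (⁅P, P⁆).topologicalClosure)
    (hΦ : Φ = (⁅P, P⁆ ⊔ Subgroup.closure {x | ∃ g ∈ P, x = g ^ ℓ}).topologicalClosure)
    (r n m : ℕ) (ρ : Fin r → AlgebraicClosure K)
    (hρ : ∀ i, (∀ g ∈ Φ, g (ρ i ^ ℓ ^ m) = ρ i ^ ℓ ^ m) ∨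
      ∃ ξ, (∀ g ∈ P, g (ξ ^ ℓ ^ n) = ξ ^ ℓ ^ n) ∧ ρ i ^ ℓ ^ m = 1 - ξ)
    (A B : Type) [CommGroup A] [Group B] [Finite B] (α : B →* A)
    (hα : Function.Surjective α) (hcentral : α.ker ≤ Subgroup.center B)
    (φ : N →* A) (hφ : ∀ g : N, (∀ i, g.1 (ρ i) = ρ i) → φ g = 1) :
    ∃ ψ : N →* B, IsOpen (ψ.ker : Set N) ∧ ∀ g : N, α (ψ g) = φ g := by
  subst hN hΦ
  exact Bog.embed_joint (Bog.ctx_of_syl (k := k) hℓ hk hPc hP) (Bog.std_of_syl hℓ hPc hP)
    (Bog.dP_le_frat ℓ) α hα hcentral ρ hρ φ hφ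

end Pool.Agent.Results.MP_72bcb7_al.ClassicalFrattini
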