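import Pool.Agent.Bog.Abs

/-!
Let `k` be algebraically closed, `K` a field containing `k`, `ℓ` a prime different from the
characteristic of `k`, `P` a Sylow pro-`ℓ` subgroup of the absolute Galois group of `K` and `N` the
closed commutator subgroup of `P`.  If for every open subgroup `V ⊇ N` of `P` with `P/V` cyclic of
order at least `ℓ²` the central embedding problems with abelian quotient coming from `V` are
solvable over `N`, then all central embedding problems with abelian quotient are solvable over `N`.
-/

set_option autoImplicit false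

namespace Pool.Agent.Results.MP_72bcb7_al.CyclicLayers

open Pool.Agent.Bog

theorem result (k : Type) [Field k] [IsAlgClosed k] (K : Type) [Field K] [Algebra k K]
    (ℓ : ℕ) (hℓ : ℓ.Prime) (hk : ringChar k ≠ ℓ)
    (P : Subgroup (Field.absoluteGaloisGroup K))
    (hPc : IsClosed (P : Set (Field.absoluteGaloisGroup K)))
    (hP : ∀ (U : Subgroup (Field.absoluteGaloisGroup K)) [U.Normal],
      IsOpen (U : Set (Field.absoluteGaloisGroup K)) →
        IsPGroup ℓ (P.map (QuotientGroup.mk' U)) ∧
          ¬ ℓ ∣ (P.map (QuotientGroup.mk' U)).index)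
    (N : Subgroup (Field.absoluteGaloisGroup K))
    (hN : N = (⁅P, P⁆).topologicalClosure)
    (hcyc : ∀ (V : Subgroup (Field.absoluteGaloisGroup K)) (hNV : N ≤ V), V ≤ P →
      IsOpen ((V.subgroupOf P : Subgroup P) : Set P) →
      (∃ ρ ∈ P, P ≤ V ⊔ Subgroup.zpowers ρ ∧ ρ ^ ℓ ∉ V) → ClassTwo N V hNV) :
    ClassTwo N N le_rfl := by
  subst hN
  exact classTwo_reduction (K := K) (Ω := AlgebraicClosure K) hℓ
    (roots_of_algClosed (k := k) hℓ hk) hPc hP le_rfl (dP_le hPc)
    (fun V hNV _ hVP ho hρ => hcyc V hNV hVP ho hρ)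

end Pool.Agent.Results.MP_72bcb7_al.CyclicLayers
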