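import Pool.Agent.Bog.Four

/-!
Let `k` be algebraically closed of characteristic `p > 2`, `K` a field containing `k`, `P` a Sylow
pro-`2` subgroup of the absolute Galois group of `K` and `N` the closed commutator subgroup of `P`.
Every central embedding problem `α : B → A ← N : φ` with `A` abelian whose homomorphism `φ` extends
to the closed subgroup generated by the commutators and the fourth powers of elements of `P` is
weakly solvable over `N`.
-/

set_option autoImplicit false

namespace Pool.Agent.Results.MP_72bcb7_al.FourthPowers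

theorem result (k : Type) [Field k] [IsAlgClosed k] (p : ℕ) (hp : 2 < p) [CharP k p]
    (K : Type) [Field K] [Algebra k K]
    (P : Subgroup (Field.absoluteGaloisGroup K))
    (hPc : IsClosed (P : Set (Field.absoluteGaloisGroup K)))
    (hP : ∀ (U : Subgroup (Field.absoluteGaloisGroup K)) [U.Normal],
      IsOpen (U : Set (Field.absoluteGaloisGroup K)) →
        IsPGroup 2 (P.map (QuotientGroup.mk' U)) ∧
          ¬ 2 ∣ (P.map (QuotientGroup.mk' U)).index)
    (N Φ : Subgroup (Field.absoluteGaloisGroup K))
    (hN : N = (⁅P, P⁆).topologicalClosure)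
    (hΦ : Φ = (⁅P, P⁆ ⊔ Subgroup.closure {x | ∃ g ∈ P, x = g ^ 4}).topologicalClosure)
    (A B : Type) [CommGroup A] [Group B] [Finite B] (α : B →* A)
    (hα : Function.Surjective α) (hcentral : α.ker ≤ Subgroup.center B)
    (φ : Φ →* A) (hφ : IsOpen (φ.ker : Set Φ)) :
    ∃ hNΦ : N ≤ Φ, ∃ ψ : N →* B, IsOpen (ψ.ker : Set N) ∧
      ∀ g : N, α (ψ g) = φ (Subgroup.inclusion hNΦ g) := by
  subst hN hΦ
  have hk : ringChar k ≠ 2 := by
    rw [ringChar.eq k p]
    omega
  have hpr : p.Prime := (CharP.char_is_prime_or_zero k p).resolve_right (by omega)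
  have hodd : Odd p := hpr.odd_of_ne_two (by omega)
  have hpK : (p : AlgebraicClosure K) = 0 := by
    have h1 : (p : k) = 0 := CharP.cast_eq_zero k p
    have h2 : (algebraMap K (AlgebraicClosure K)) (algebraMap k K (p : k)) = 0 := by
      rw [h1, map_zero, map_zero]
    rwa [map_natCast, map_natCast] at h2
  have h2K : (2 : AlgebraicClosure K) ≠ 0 := by
    intro h
    obtain ⟨j, hj⟩ := hodd
    have h3 : (p : AlgebraicClosure K) = 1 := by
      rw [hj]
      push_cast
      rw [h, zero_mul, zero_add]
    rw [hpK] at h3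
    exact zero_ne_one h3
  refine ⟨Subgroup.topologicalClosure_mono le_sup_left, ?_⟩
  exact Bog.classTwo_frn (K := K) (Ω := AlgebraicClosure K)
    (Bog.ctx_of_syl (k := k) Nat.prime_two hk hPc hP) h2K hodd hpK hPc hP A B α hα hcentral φ hφ

end Pool.Agent.Results.MP_72bcb7_al.FourthPowers
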