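import Pool.Agent.Bog.Emb3

/-!
Let `k` be algebraically closed of characteristic different from `2`, `K` a field containing `k`,
`P` a Sylow pro-`2` subgroup of the absolute Galois group of `K`, `N` the closed commutator subgroup
of `P` and `U ⊇ N` a subgroup of `P` with `P/U` cyclic of order dividing `4`.  Every central
embedding problem with abelian quotient and kernel of exponent `2` coming from `U` is solvable
over `N`.
-/

set_option autoImplicit false

namespace Pool.Agent.Results.MP_72bcb7_al.QuarticLayer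

open Pool.Agent.Bog

theorem result (k : Type) [Field k] [IsAlgClosed k] (K : Type) [Field K] [Algebra k K]
    (hk : ringChar k ≠ 2)
    (P : Subgroup (Field.absoluteGaloisGroup K))
    (hPc : IsClosed (P : Set (Field.absoluteGaloisGroup K)))
    (hP : ∀ (U : Subgroup (Field.absoluteGaloisGroup K)) [U.Normal],
      IsOpen (U : Set (Field.absoluteGaloisGroup K)) →
        IsPGroup 2 (P.map (QuotientGroup.mk' U)) ∧
          ¬ 2 ∣ (P.map (QuotientGroup.mk' U)).index)
    (N U : Subgroup (Field.absoluteGaloisGroup K))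
    (hN : N = (⁅P, P⁆).topologicalClosure) (hNU : N ≤ U) (hUP : U ≤ P)
    (ρ : Field.absoluteGaloisGroup K) (hρ : ρ ∈ P) (hPρ : P ≤ U ⊔ Subgroup.zpowers ρ)
    (hρ4 : ρ ^ 4 ∈ U)
    (A B : Type) [CommGroup A] [Group B] [Finite B] (α : B →* A)
    (hα : Function.Surjective α) (hcentral : α.ker ≤ Subgroup.center B)
    (hexp : ∀ y ∈ α.ker, y ^ 2 = 1)
    (φ : U →* A) (hφ : IsOpen (φ.ker : Set U)) :
    ∃ ψ : N →* B, IsOpen (ψ.ker : Set N) ∧
      ∀ g : N, α (ψ g) = φ (Subgroup.inclusion hNU g) := by
  subst hN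
  have hroots := roots_of_algClosed (k := k) (K := K) Nat.prime_two hk
  have h2 : (2 : K) ≠ 0 := by
    intro h
    have h1 : (2 : k) = 0 := by
      apply (algebraMap k K).injective
      rw [map_ofNat, h, map_zero]
    have h3 : ringChar k ∣ 2 := ringChar.dvd (by exact_mod_cast h1)
    rcases (Nat.dvd_prime Nat.prime_two).mp h3 with h4 | h4
    · exact CharP.ringChar_ne_one h4
    · exact hk h4
  have hkill := kills_c4 (K := K) (Ω := AlgebraicClosure K) h2 hroots hPc hP hNU hUP hρ hPρ hρ4
  have hcup : Cup hNU 2 := cup_of_kills (prim2 h2) hNU hkill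
  have hS := std_of_syl (K := K) (Ω := AlgebraicClosure K) Nat.prime_two hPc hP
  exact embed_of_cup_q (K := K) (Ω := AlgebraicClosure K) Nat.prime_two hNU
    (fun g hg => hS.sp g (hUP hg)) hroots (m := 1) (by rw [pow_one]; exact hcup) α hα hcentral
    (by rw [pow_one]; exact hexp) φ hφ

end Pool.Agent.Results.MP_72bcb7_al.QuarticLayer
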